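import Pool.Agent.Helper14.AY.GoalsB

/-! # DQM: second derivatives of difference quotients -/

open Complex Metric Set Filter Topology MeasureTheory
open scoped ContDiff ComplexConjugate ComplexOrder Manifold Matrix

namespace Pool.Agent.Helper36.AY

open Pool.Agent.Helper95.Lin Pool.Agent.Helper16.Abund Pool.Agent.Helper92.Orb Pool.Agent.Helper10.SP
  Pool.Agent.Helper95.RK Pool.Agent.Helper57.HS Pool.Agent.Helper14.AY

theorem dqm (hLMD : S_LMD) : S_DQM := by
  intro n W v hW hv e h x hx hxe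
  have hvx : ContDiffAt ℝ 2 v x := hv.contDiffAt (hW.mem_nhds hx)
  have hve : ContDiffAt ℝ 2 v (x + h • e) := hv.contDiffAt (hW.mem_nhds hxe)
  have htr : ContDiff ℝ 2 (fun y : Cn n => y + h • e) := contDiff_id.add contDiff_const
  have h1 : ContDiffAt ℝ 2 (fun y => v (y + h • e)) x :=
    ContDiffAt.comp x (g := v) (f := fun y => y + h • e) hve htr.contDiffAt
  have h2 : ContDiffAt ℝ 2 (dq e h v) x := (h1.sub hvx).const_smul h⁻¹
  have hdv : ∀ y ∈ W, DifferentiableAt ℝ v y := fun y hy =>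
    (hv.contDiffAt (hW.mem_nhds hy)).differentiableAt (by norm_num)
  have hddv : ∀ y ∈ W, DifferentiableAt ℝ (fderiv ℝ v) y := fun y hy =>
    ((hv.contDiffAt (hW.mem_nhds hy)).fderiv_right (m := 1) (by norm_num)).differentiableAt
      (by norm_num)
  have hev : ∀ᶠ y in 𝓝 x, fderiv ℝ (dq e h v) y =
      h⁻¹ • (fderiv ℝ v (y + h • e) - fderiv ℝ v y) := by
    have hc : ContinuousAt (fun y : Cn n => y + h • e) x := htr.continuous.continuousAt
    filter_upwards [hW.mem_nhds hx, hc.preimage_mem_nhds (hW.mem_nhds hxe)] with y hy hye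
    have e1 : DifferentiableAt ℝ (fun y => v (y + h • e)) y :=
      (hdv _ hye).comp y (htr.differentiable (by norm_num) y)
    have e2 : fderiv ℝ (fun y => v (y + h • e)) y = fderiv ℝ v (y + h • e) :=
      fderiv_comp_add_right (h • e)
    show fderiv ℝ (fun y => h⁻¹ • (v (y + h • e) - v y)) y = _
    have e3 : DifferentiableAt ℝ (fun y => v (y + h • e) - v y) y := e1.sub (hdv y hy)
    rw [fderiv_fun_const_smul e3, fderiv_fun_sub e1 (hdv y hy), e2]
  have h3 : D2 (dq e h v) x = h⁻¹ • (D2 v (x + h • e) - D2 v x) := by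
    unfold D2
    rw [Filter.EventuallyEq.fderiv_eq hev]
    have e1 : DifferentiableAt ℝ (fun y => fderiv ℝ v (y + h • e)) x :=
      (hddv _ hxe).comp x (htr.differentiable (by norm_num) x)
    have e2 : fderiv ℝ (fun y => fderiv ℝ v (y + h • e)) x = fderiv ℝ (fderiv ℝ v) (x + h • e) :=
      fderiv_comp_add_right (h • e)
    have e3 : DifferentiableAt ℝ (fun y => fderiv ℝ v (y + h • e) - fderiv ℝ v y) x :=
      e1.sub (hddv x hx)
    rw [fderiv_fun_const_smul e3, fderiv_fun_sub e1 (hddv x hx), e2]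
  refine ⟨h2, h3, fun i j => ?_⟩
  rw [(hLMD _ x h2).2.1 i j, h3]
  show _ = h⁻¹ • (LM v (x + h • e) i j - LM v x i j)
  rw [(hLMD _ x hvx).2.1 i j, (hLMD _ _ hve).2.1 i j]
  simp only [smul_apply, sub_apply, smul_eq_mul, Complex.real_smul]
  push_cast
  ring

end Pool.Agent.Helper36.AY
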